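import Pool.Agent.Helper96.SE.Stmts
import Pool.Agent.Helper38.SE.REL
import Pool.Agent.Helper67.BC.SUM

/-! # Module CUT: sets of cities which violate their subtour elimination inequality are closed -/

set_option autoImplicit false

namespace Pool.Agent.Helper96.SE

open Pool.Agent.Helper31.BC (Pair xv rel_two)
open Pool.Agent.Helper52.Grid
open Pool.Agent.Helper68.LP (ucost ucost_comm)

theorem cut_nonneg {n : ℕ} (hU vU : ℕ → ℕ → Bool) (p : Fin n → Pt) (e : Pair n) :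
    0 ≤ xb hU vU p e := by
  unfold xb xv ucost
  split_ifs <;> simp

/-- the sum over the cut is even -/
theorem cut_even {n : ℕ} (S : Finset (Fin n)) (x : Pair n → ℤ)
    (hd : ∀ i, ∑ e : Pair n, (if e.1.1 = i ∨ e.1.2 = i then x e else 0) = 2) :
    ∃ D : ℤ, ∑ e : Pair n, (if (e.1.1 ∈ S ↔ e.1.2 ∈ S) then 0 else x e) = 2 * D := by
  have h1 : ∑ i ∈ S, ∑ e : Pair n, (if e.1.1 = i ∨ e.1.2 = i then x e else 0) =
      ∑ i ∈ S, (2 : ℤ) := Finset.sum_congr rfl fun i _ => hd i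
  rw [Finset.sum_comm] at h1
  have h2 : ∀ e : Pair n, ∑ i ∈ S, (if e.1.1 = i ∨ e.1.2 = i then x e else 0) =
      (if (e.1.1 ∈ S ↔ e.1.2 ∈ S) then 0 else x e) +
        2 * (if e.1.1 ∈ S ∧ e.1.2 ∈ S then x e else 0) := by
    intro e
    rw [rel_two]
    by_cases g1 : e.1.1 ∈ S
    · by_cases g2 : e.1.2 ∈ S
      · simp [g1, g2]
        ring
      · simp [g1, g2]
    · by_cases g2 : e.1.2 ∈ S
      · simp [g1, g2]
      · simp [g1, g2]
  rw [Finset.sum_congr rfl fun e _ => h2 e, Finset.sum_add_distrib, ← Finset.mul_sum,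
    Finset.sum_const, nsmul_eq_mul] at h1
  refine ⟨(S.card : ℤ) - ∑ e : Pair n, (if e.1.1 ∈ S ∧ e.1.2 ∈ S then x e else 0), ?_⟩
  linarith

theorem cut_real {n : ℕ} (S : Finset (Fin n)) (x : Pair n → ℤ) :
    ∑ e : Pair n, (subtour S).a e * (x e : ℝ) =
      ((∑ e : Pair n, (if (e.1.1 ∈ S ↔ e.1.2 ∈ S) then 0 else x e) : ℤ) : ℝ) := by
  rw [Int.cast_sum]
  refine Finset.sum_congr rfl fun e _ => ?_
  unfold subtour
  simp only
  split_ifs
  · simp
  · simp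

/-- no edge with a nonzero value leaves `S` -/
theorem cut_zero {n : ℕ} (S : Finset (Fin n)) (x : Pair n → ℤ) (h0 : ∀ e, 0 ≤ x e)
    (hd : ∀ i, ∑ e : Pair n, (if e.1.1 = i ∨ e.1.2 = i then x e else 0) = 2)
    (hv : ¬ (subtour S).Holds x) (e : Pair n) (he : x e ≠ 0) : e.1.1 ∈ S ↔ e.1.2 ∈ S := by
  obtain ⟨D, hD⟩ := cut_even S x hd
  have h1 : ¬ ((2 : ℝ) ≤ ∑ e : Pair n, (subtour S).a e * (x e : ℝ)) := hv
  rw [cut_real] at h1
  have hnn : ∀ e ∈ (Finset.univ : Finset (Pair n)),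
      0 ≤ (if (e.1.1 ∈ S ↔ e.1.2 ∈ S) then 0 else x e) := by
    intro e _
    split_ifs
    · exact le_refl 0
    · exact h0 e
  have h2 : ¬ ((2 : ℤ) ≤ ∑ e : Pair n, (if (e.1.1 ∈ S ↔ e.1.2 ∈ S) then 0 else x e)) := by
    intro h
    apply h1
    exact_mod_cast h
  have h3 : 0 ≤ ∑ e : Pair n, (if (e.1.1 ∈ S ↔ e.1.2 ∈ S) then 0 else x e) :=
    Finset.sum_nonneg hnn
  have h4 : ∑ e : Pair n, (if (e.1.1 ∈ S ↔ e.1.2 ∈ S) then 0 else x e) = 0 := by
    rw [hD] at h2 h3 ⊢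
    omega
  have h5 := (Finset.sum_eq_zero_iff_of_nonneg hnn).1 h4 e (Finset.mem_univ e)
  by_contra hc
  rw [if_neg hc] at h5
  exact he h5

/-- membership for neighbours -/
theorem cut_nb {n : ℕ} {hU vU : ℕ → ℕ → Bool} {p : Fin n → Pt} (hp : Function.Injective p)
    {S : Finset (Fin n)} (hz : ∀ e, xb hU vU p e ≠ 0 → (e.1.1 ∈ S ↔ e.1.2 ∈ S)) {a b : Pt}
    (hab : a ≠ b) (hne : ucost (fun x y => ((hU x y).toNat : ℤ)) (fun x y => ((vU x y).toNat : ℤ))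
      0 a b ≠ 0) (ha : ∃ i, p i = a) (hb : ∃ i, p i = b) :
    (∃ i ∈ S, p i = a) ↔ (∃ i ∈ S, p i = b) := by
  obtain ⟨i, rfl⟩ := ha
  obtain ⟨j, rfl⟩ := hb
  have hij : i ≠ j := fun h => hab (by rw [h])
  have key : i ∈ S ↔ j ∈ S := by
    rcases lt_or_gt_of_ne hij with h | h
    · exact hz ⟨(i, j), h⟩ hne
    · refine (hz ⟨(j, i), h⟩ ?_).symm
      rw [ucost_comm] at hne
      exact hne
  constructor
  · rintro ⟨i', hi', he⟩
    rw [hp he] at hi'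
    exact ⟨j, key.1 hi', rfl⟩
  · rintro ⟨j', hj', he⟩
    rw [hp he] at hj'
    exact ⟨i, key.2 hj', rfl⟩

theorem st_CUT : ST_CUT := by
  intro n N h v hU vU p hB hb hp hmem S hS
  have hd : ∀ i, ∑ e : Pair n, (if e.1.1 = i ∨ e.1.2 = i then xb hU vU p e else 0) = 2 :=
    fun i => rel_deg2w Pool.Agent.Helper31.BC.st_SUM hB hp hmem (rel_lw hb) i
  have hz : ∀ e, xb hU vU p e ≠ 0 → (e.1.1 ∈ S ↔ e.1.2 ∈ S) := fun e he =>
    cut_zero S _ (cut_nonneg hU vU p) hd hS e he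
  constructor
  · intro x y hxy
    obtain ⟨h1, h2⟩ := hb.hV x y hxy
    apply cut_nb hp hz _ _ ((hmem _).1 h1) ((hmem _).1 h2)
    · intro hc
      have := congrArg Prod.fst hc
      simp at this
    · simp [ucost, hxy]
  · intro x y hxy
    obtain ⟨h1, h2⟩ := hb.vV x y hxy
    apply cut_nb hp hz _ _ ((hmem _).1 h1) ((hmem _).1 h2)
    · intro hc
      have := congrArg Prod.snd hc
      simp at this
    · simp [ucost, hxy]

end Pool.Agent.Helper96.SE
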