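import Pool.Agent.Helper96.SE.Stmts2
import Pool.Agent.Helper24.SE.NUM

set_option autoImplicit false

/-! Module NUM2: the numerical part of the lower bound on branch-and-cut proofs. -/

namespace Pool.Agent.Helper96.SE

open Filter in
theorem num2_ev (δ δ' : ℝ) (h0 : 0 < δ) (h1 : δ < δ') (h2 : 14 * δ' < 1) (h3 : 6 * δ' < 7 * δ) :
    ∃ n₀ : ℕ, ∀ n : ℕ, n₀ ≤ n → 1 ≤ (n : ℝ) ∧ 42 ≤ (n : ℝ) ^ δ' ∧
      2 * 10 ^ 12 ≤ (n : ℝ) ^ (1 - 14 * δ') ∧ 24000 ≤ (n : ℝ) ^ (7 * δ - 6 * δ') ∧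
      16 + 32 * Real.log n ≤ (n : ℝ) ^ (δ' - δ) := by
  have hd : 0 < δ' - δ := by linarith
  have t0 : Tendsto (fun n : ℕ => (n : ℝ)) atTop atTop := tendsto_natCast_atTop_atTop
  have t1 := (tendsto_rpow_atTop (by linarith : 0 < δ')).comp t0
  have t2 := (tendsto_rpow_atTop (by linarith : 0 < 1 - 14 * δ')).comp t0
  have t3 := (tendsto_rpow_atTop (by linarith : 0 < 7 * δ - 6 * δ')).comp t0
  have t4 := (tendsto_rpow_atTop hd).comp t0
  have t5 := (isLittleO_log_rpow_atTop hd).bound (show (0 : ℝ) < 1 / 64 by norm_num)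
  have t6 := t0.eventually t5
  have e := (t1.eventually (eventually_ge_atTop 42)).and
    ((t2.eventually (eventually_ge_atTop (2 * 10 ^ 12))).and
    ((t3.eventually (eventually_ge_atTop 24000)).and
    ((t4.eventually (eventually_ge_atTop 32)).and (t6.and (eventually_ge_atTop 1)))))
  obtain ⟨n₀, hn⟩ := eventually_atTop.1 e
  refine ⟨n₀, fun n hn0 => ?_⟩
  obtain ⟨a1, a2, a3, a4, a5, a6⟩ := hn n hn0
  simp only [Function.comp] at a1 a2 a3 a4
  have h6 : (1 : ℝ) ≤ n := by exact_mod_cast a6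
  have hl : 0 ≤ Real.log n := Real.log_nonneg h6
  have hp : 0 ≤ (n : ℝ) ^ (δ' - δ) := Real.rpow_nonneg (by linarith) _
  rw [Real.norm_of_nonneg hl, Real.norm_of_nonneg hp] at a5
  exact ⟨h6, a1, a2, a3, by linarith⟩

theorem st_NUM2 : ST_NUM2 := by
  intro δ h0 h14
  obtain ⟨δ', hd1, hd2, hd3⟩ : ∃ δ' : ℝ, δ < δ' ∧ 14 * δ' < 1 ∧ 6 * δ' < 7 * δ := by
    rcases le_total (1 / 14 : ℝ) (7 * δ / 6) with h | h
    · exact ⟨(δ + 1 / 14) / 2, by linarith, by linarith, by linarith⟩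
    · exact ⟨(δ + 7 * δ / 6) / 2, by linarith, by linarith, by linarith⟩
  obtain ⟨n₀, hn₀⟩ := num2_ev δ δ' h0 hd1 hd2 hd3
  refine ⟨n₀, fun n hn => ?_⟩
  obtain ⟨hn1, e1, e2, e3, e4⟩ := hn₀ n hn
  have hnpos : (0 : ℝ) < n := by linarith
  obtain ⟨s, hs⟩ : ∃ s : ℕ, s = ⌊(n : ℝ) ^ δ'⌋₊ := ⟨_, rfl⟩
  have hp0 : 0 ≤ (n : ℝ) ^ δ' := Real.rpow_nonneg hnpos.le _
  have hs1 : (s : ℝ) ≤ (n : ℝ) ^ δ' := by
    rw [hs]
    exact Nat.floor_le hp0
  have hs2 : (n : ℝ) ^ δ' < s + 1 := by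
    rw [hs]
    exact Nat.lt_floor_add_one _
  have h41 : 41 ≤ s := by
    have : (41 : ℝ) < s + 1 := by linarith
    have h5 : (41 : ℕ) < s + 1 := by exact_mod_cast this
    omega
  have hspos : (0 : ℝ) < s := by
    have : (41 : ℝ) ≤ s := by exact_mod_cast h41
    linarith
  refine ⟨s, by omega, ?_, ?_, ?_⟩
  · have h5 : (s : ℝ) ^ 14 ≤ (n : ℝ) ^ (14 * δ') := by
      calc (s : ℝ) ^ 14 ≤ ((n : ℝ) ^ δ') ^ 14 := pow_le_pow_left₀ hspos.le hs1 14
        _ = (n : ℝ) ^ (14 * δ') := by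
          rw [← Real.rpow_natCast, ← Real.rpow_mul hnpos.le]
          congr 1
          push_cast
          ring
    have h6 : (n : ℝ) ^ (1 - 14 * δ') * (n : ℝ) ^ (14 * δ') = n := by
      rw [← Real.rpow_add hnpos]
      simp
    have h7 : 2 * 10 ^ 12 * (s : ℝ) ^ 14 ≤ n := by
      rw [← h6]
      exact mul_le_mul e2 h5 (by positivity) (Real.rpow_nonneg hnpos.le _)
    exact_mod_cast h7
  · intro J T hJ hJ2 hT
    have hJr : (0 : ℝ) < J := by exact_mod_cast hJ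
    have hJ3 : (J : ℝ) ≤ 6000 * (s : ℝ) ^ 6 := by exact_mod_cast hJ2
    have hT2 : (n : ℝ) ≤ 2 * T := by exact_mod_cast hT
    have h5 : (T : ℝ) / J < ((T / J : ℕ) : ℝ) + 1 := by
      rw [div_lt_iff₀ hJr]
      have := Nat.lt_div_mul_add (a := T) hJ
      have h8 : T < (T / J + 1) * J := by
        rw [Nat.add_mul, one_mul]
        exact this
      exact_mod_cast h8
    have h6 : (s : ℝ) ^ 6 ≤ (n : ℝ) ^ (6 * δ') := by
      calc (s : ℝ) ^ 6 ≤ ((n : ℝ) ^ δ') ^ 6 := pow_le_pow_left₀ hspos.le hs1 6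
        _ = (n : ℝ) ^ (6 * δ') := by
          rw [← Real.rpow_natCast, ← Real.rpow_mul hnpos.le]
          congr 1
          push_cast
          ring
    have h7 : (n : ℝ) ^ (1 - 7 * δ) * (n : ℝ) ^ (7 * δ - 6 * δ') * (n : ℝ) ^ (6 * δ') = n := by
      rw [← Real.rpow_add hnpos, ← Real.rpow_add hnpos]
      have : 1 - 7 * δ + (7 * δ - 6 * δ') + 6 * δ' = 1 := by ring
      rw [this, Real.rpow_one]
    have hq : 1 ≤ (n : ℝ) ^ (1 - 7 * δ) := Real.one_le_rpow hn1 (by linarith)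
    have hr : 0 < (n : ℝ) ^ (6 * δ') := Real.rpow_pos_of_pos hnpos _
    -- `n ≥ 24000 n^(1-7δ) n^(6δ') ≥ 2 n^(1-7δ) · 2 J`
    have h9 : 24000 * (n : ℝ) ^ (1 - 7 * δ) * (n : ℝ) ^ (6 * δ') ≤ n := by
      rw [← h7]
      have h10 : 24000 * (n : ℝ) ^ (1 - 7 * δ) ≤
          (n : ℝ) ^ (1 - 7 * δ) * (n : ℝ) ^ (7 * δ - 6 * δ') := by
        nlinarith
      exact le_of_eq_of_le rfl (by
        have := mul_le_mul_of_nonneg_right h10 hr.le
        rw [h7] at this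
        rw [h7]
        exact this)
    have h11 : 2 * (n : ℝ) ^ (1 - 7 * δ) ≤ (T : ℝ) / J := by
      rw [le_div_iff₀ hJr]
      have h12 : (J : ℝ) ≤ 6000 * (n : ℝ) ^ (6 * δ') := by linarith
      have h13 := mul_le_mul_of_nonneg_left h12 (by linarith : 0 ≤ 2 * (n : ℝ) ^ (1 - 7 * δ))
      have h14 : 2 * (n : ℝ) ^ (1 - 7 * δ) * (6000 * (n : ℝ) ^ (6 * δ')) =
          (24000 * (n : ℝ) ^ (1 - 7 * δ) * (n : ℝ) ^ (6 * δ')) / 2 := by ring
      linarith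
    linarith
  · intro t h
    by_contra hlt
    have hlt : (t : ℝ) < Real.exp ((n : ℝ) ^ δ) := lt_of_not_ge hlt
    obtain ⟨y, hy⟩ : ∃ y : ℝ, y = (n : ℝ) ^ δ := ⟨_, rfl⟩
    rw [← hy] at hlt
    have hy1 : 1 ≤ y := by
      rw [hy]
      exact Real.one_le_rpow hn1 h0.le
    have hy0 : 0 ≤ y := by linarith
    have hL := num_log t y hy0 hlt
    obtain ⟨l, hl⟩ : ∃ l : ℝ, l = Real.log s := ⟨_, rfl⟩
    have hl0 : 0 ≤ l := by
      rw [hl]
      apply Real.log_nonneg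
      have : (41 : ℝ) ≤ s := by exact_mod_cast h41
      linarith
    have hl1 : l ≤ Real.log n := by
      rw [hl]
      apply Real.log_le_log hspos
      refine hs1.trans ?_
      calc (n : ℝ) ^ δ' ≤ (n : ℝ) ^ (1 : ℝ) := Real.rpow_le_rpow_of_exponent_le hn1 (by linarith)
        _ = n := Real.rpow_one _
    have hP : ((((4 * s ^ 2 + 1) * (8 * s) + 1) ^ Nat.log 2 t : ℕ) : ℝ) ≤
        Real.exp (8 * l * y) := by
      have h1 : ((((4 * s ^ 2 + 1) * (8 * s) + 1) ^ Nat.log 2 t : ℕ) : ℝ) ≤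
          ((s : ℝ) ^ 4) ^ Nat.log 2 t := by
        have := Nat.pow_le_pow_left (num_base s h41) (Nat.log 2 t)
        exact_mod_cast this
      refine h1.trans ?_
      rw [← Real.log_le_iff_le_exp (by positivity), Real.log_pow, Real.log_pow, ← hl]
      push_cast
      nlinarith [mul_le_mul_of_nonneg_right hL (by positivity : 0 ≤ 4 * l)]
    have hR : (t : ℝ) * ((((4 * s ^ 2 + 1) * (8 * s) + 1) ^ Nat.log 2 t : ℕ) : ℝ) ≤
        Real.exp (y + 8 * l * y) := by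
      rw [Real.exp_add]
      exact mul_le_mul hlt.le hP (Nat.cast_nonneg _) (Real.exp_pos _).le
    have hone : (1 : ℝ) ≤ Real.exp (y + 8 * l * y) := Real.one_le_exp (by positivity)
    have hmain : (2 : ℝ) ^ s ≤
        12 * ((t : ℝ) * ((((4 * s ^ 2 + 1) * (8 * s) + 1) ^ Nat.log 2 t : ℕ) : ℝ)) + 2 := by
      have h1 : ((2 ^ s : ℕ) : ℝ) ≤
          ((12 * t * ((4 * s ^ 2 + 1) * (8 * s) + 1) ^ Nat.log 2 t + 2 : ℕ) : ℝ) :=
        Nat.cast_le.2 h
      have h2 : ((12 * t * ((4 * s ^ 2 + 1) * (8 * s) + 1) ^ Nat.log 2 t + 2 : ℕ) : ℝ) =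
          12 * ((t : ℝ) * ((((4 * s ^ 2 + 1) * (8 * s) + 1) ^ Nat.log 2 t : ℕ) : ℝ)) + 2 := by
        rw [Nat.cast_add, Nat.cast_mul, Nat.cast_mul]
        push_cast
        ring
      rw [h2] at h1
      have h3 : ((2 ^ s : ℕ) : ℝ) = (2 : ℝ) ^ s := by push_cast; rfl
      rw [h3] at h1
      exact h1
    have hup : (2 : ℝ) ^ s < Real.exp (3 + (y + 8 * l * y)) := by
      rw [Real.exp_add]
      have h1 : (14 : ℝ) * Real.exp (y + 8 * l * y) < Real.exp 3 * Real.exp (y + 8 * l * y) :=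
        mul_lt_mul_of_pos_right num_exp3 (Real.exp_pos _)
      linarith
    have hlow : Real.exp ((s : ℝ) / 2) ≤ (2 : ℝ) ^ s := by
      rw [← Real.le_log_iff_exp_le (by positivity), Real.log_pow]
      have := Real.log_two_gt_d9
      nlinarith
    have hfin := Real.exp_lt_exp.1 (lt_of_le_of_lt hlow hup)
    have h6 : y * (n : ℝ) ^ (δ' - δ) = (n : ℝ) ^ δ' := by
      rw [hy, ← Real.rpow_add hnpos]
      congr 1
      ring
    have h7 : y * (16 + 32 * Real.log n) ≤ (n : ℝ) ^ δ' := by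
      rw [← h6]
      exact mul_le_mul_of_nonneg_left e4 hy0
    have h8 : 8 * l * y ≤ 8 * Real.log n * y := by
      have := mul_le_mul_of_nonneg_right hl1 hy0
      nlinarith
    have h9 : (n : ℝ) ^ δ' ≤ 2 * s := by linarith
    nlinarith

end Pool.Agent.Helper96.SE
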